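import Pool.Agent.N218.T21.Tam
import Pool.Agent.N875.X15.MinE

/-!
# The twists of `X_0(15)` by all squarefree integers: minimal equations and Tamagawa numbers
-/

set_option autoImplicit false
set_option linter.unusedSectionVars false
set_option linter.style.haveILetI false

namespace Pool.Agent.N218.T15

open WeierstrassCurve
open Pool.Agent.TH841.SH (IsR)
open Pool.Agent.Y700 (PtP SingRed E0 tam tamProd VR)
open Pool.Agent.W97.MT (IsGloballyMinimal)
open Pool.Agent.N218.T21 (Spl norm_unit norm_three sq_three Kd Kd_ne dvd_Kd)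
open Pool.Agent.N875.X15 (isR_eqn norm_int norm_add_lt norm_sub_lt norm_lt_of_dvd not_norm_lt
  Em WN isRp sing_iff nonsingp tam_ram tam_two tam_three tam_five min_Em min_WN WN_Δ Em_Δ tam_WN_odd)

open scoped Classical

/-! ### the prime `3` -/

theorem sing_three {m : ℤ} (h3 : ¬ (3 : ℤ) ∣ m) (x y : ℚ_[3])
    (h : ((Em m).map (Int.castRingHom ℚ_[3])).toAffine.Nonsingular x y) :
    SingRed (Em m) 3 x y ↔ ‖x - 0‖ < 1 := by
  rw [sing_iff (by norm_num) h, sub_zero]
  have d9 : ‖(9 : ℚ_[3]) * m‖ < 1 := by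
    have := norm_lt_of_dvd (p := 3) (k := 9 * m) ⟨3 * m, by push_cast; ring⟩
    push_cast at this
    exact this
  constructor
  · rintro ⟨-, ⟨c, -⟩ | ⟨c, -⟩ | ⟨c, d⟩⟩
    · exact c
    · exact c
    · exfalso
      have e := norm_sub_lt c d
      have e1 : x + 9 * (m : ℚ_[3]) - (x - 16 * m) = ((25 * m : ℤ) : ℚ_[3]) := by push_cast; ring
      rw [e1] at e
      exact not_norm_lt (p := 3) (k := 25 * m) (by push_cast; omega) e
  · intro c
    exact ⟨c.le, Or.inl ⟨c, norm_add_lt c d9⟩⟩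

/-- **The Tamagawa number at `3`, split multiplicative reduction.** -/
theorem tam_three_split {m : ℤ} (h3 : m % 3 = 2) : tam (Em m) 3 = 4 := by
  have hm : m ≠ 0 := by rintro rfl; norm_num at h3
  have n3 : ¬ (3 : ℤ) ∣ m := by omega
  have n3' : ¬ ((3 : ℕ) : ℤ) ∣ m := by exact_mod_cast n3
  have nm : ‖(m : ℚ_[3])‖ = 1 := norm_unit n3'
  obtain ⟨κ, hκ⟩ := sq_three (n := -16 * m) (by omega)
  have n7m : ‖((-16 * m : ℤ) : ℚ_[3])‖ = 1 := norm_unit (by push_cast; omega)
  have k1 : ‖κ‖ = 1 := by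
    rw [hκ, norm_mul] at n7m
    nlinarith [norm_nonneg κ]
  have H : Spl (Em m) 3 (0 : ℚ_[3]) (-9 * m) (16 * m) κ := by
    refine ⟨by norm_num, isRp 3 m, sing_three n3, ?_, ?_, k1⟩
    · have e : (-9 : ℚ_[3]) * m - 0 = -(3 * (3 * m)) := by ring
      rw [e, norm_neg, norm_mul, norm_mul, norm_three, nm, mul_one, pow_two]
    · rw [pow_two, ← hκ]
      push_cast
      ring
  refine H.tam4 (nonsingp hm (Or.inl rfl)) ?_
  obtain ⟨z, hz⟩ := sq_three (n := (1 + 3 * m) * (3 - 16 * m)) (by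
    have e : (1 + 3 * m) * (3 - 16 * m) = 3 * (1 + 3 * m) - 16 * m - 48 * (m * m) := by ring
    omega)
  have hz' : z * z = (1 + 3 * (m : ℚ_[3])) * (3 - 16 * m) := by
    rw [← hz]
    push_cast
    ring
  have hz0 : z ≠ 0 := by
    rintro rfl
    have h1 : (1 + 3 * m) * (3 - 16 * m) = 0 := by
      rw [mul_zero] at hz
      exact_mod_cast hz
    rcases mul_eq_zero.1 h1 with h | h <;> omega
  refine ⟨3, 3 * z, ?_, ?_⟩
  · rw [Affine.nonsingular_iff, isR_eqn (isRp 3 m)]
    constructor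
    · linear_combination 9 * hz'
    · right
      simp only [Em, map_a₁, map_a₃, eq_intCast]
      push_cast
      intro h
      apply hz0
      have : (6 : ℚ_[3]) * z = 0 := by linear_combination h
      exact (mul_eq_zero.1 this).resolve_left (by norm_num)
  · rw [sub_zero, norm_three]

/-! ### the prime `5` -/

theorem norm_five [Fact (Nat.Prime 5)] : ‖(5 : ℚ_[5])‖ = ((5 : ℕ) : ℝ)⁻¹ := by
  have : (5 : ℚ_[5]) = ((5 : ℕ) : ℚ_[5]) := by norm_num
  rw [this, Padic.norm_p]

theorem sq_five [Fact (Nat.Prime 5)] {n : ℤ} (h : n % 5 = 1 ∨ n % 5 = 4) :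
    IsSquare (n : ℚ_[5]) := by
  refine Pool.Agent.N574.QB.sq_of_jac (by norm_num) ?_
  rw [jacobiSym.mod_left]
  rcases h with h | h
  · have e : n % ((5 : ℕ) : ℤ) = 1 := by exact_mod_cast h
    rw [e, jacobiSym.one_left]
  · have e : n % ((5 : ℕ) : ℤ) = 4 := by exact_mod_cast h
    rw [e]
    norm_num

theorem sing_five [Fact (Nat.Prime 5)] {m : ℤ} (h5 : ¬ (5 : ℤ) ∣ m) (x y : ℚ_[5])
    (h : ((Em m).map (Int.castRingHom ℚ_[5])).toAffine.Nonsingular x y) :
    SingRed (Em m) 5 x y ↔ ‖x - -9 * m‖ < 1 := by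
  have e0 : x - -9 * (m : ℚ_[5]) = x + 9 * m := by ring
  rw [sing_iff (by norm_num) h, e0]
  have d25 : ‖(25 : ℚ_[5]) * m‖ < 1 := by
    have := norm_lt_of_dvd (p := 5) (k := 25 * m) ⟨5 * m, by push_cast; ring⟩
    push_cast at this
    exact this
  constructor
  · rintro ⟨-, ⟨-, c⟩ | ⟨c, d⟩ | ⟨c, -⟩⟩
    · exact c
    · exfalso
      have e := norm_sub_lt c d
      have e1 : x - (x - 16 * (m : ℚ_[5])) = ((16 * m : ℤ) : ℚ_[5]) := by push_cast; ring
      rw [e1] at e
      exact not_norm_lt (p := 5) (k := 16 * m) (by push_cast; omega) e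
    · exact c
  · intro c
    have e1 : x - 16 * (m : ℚ_[5]) = (x + 9 * m) - 25 * m := by ring
    refine ⟨?_, Or.inr (Or.inr ⟨c, by rw [e1]; exact norm_sub_lt c d25⟩)⟩
    have e2 : x = (x + 9 * (m : ℚ_[5])) - ((9 * m : ℤ) : ℚ_[5]) := by push_cast; ring
    rw [e2, sub_eq_add_neg]
    exact (Padic.nonarchimedean _ _).trans (max_le c.le (by rw [norm_neg]; exact norm_int _))

/-- **The Tamagawa number at `5`, split multiplicative reduction.** -/
theorem tam_five_split [Fact (Nat.Prime 5)] {m : ℤ} (h5 : m % 5 = 1 ∨ m % 5 = 4) :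
    tam (Em m) 5 = 4 := by
  have hm : m ≠ 0 := by rintro rfl; norm_num at h5
  have n5 : ¬ (5 : ℤ) ∣ m := by omega
  have n5' : ¬ ((5 : ℕ) : ℤ) ∣ m := by exact_mod_cast n5
  have nm : ‖(m : ℚ_[5])‖ = 1 := norm_unit n5'
  obtain ⟨κ, hκ⟩ := sq_five (n := -9 * m) (by omega)
  have n9m : ‖((-9 * m : ℤ) : ℚ_[5])‖ = 1 := norm_unit (by push_cast; omega)
  have k1 : ‖κ‖ = 1 := by
    rw [hκ, norm_mul] at n9m
    nlinarith [norm_nonneg κ]
  have H : Spl (Em m) 5 (-9 * (m : ℚ_[5])) (16 * m) 0 κ := by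
    refine ⟨by norm_num, (isRp 5 m).rot, sing_five n5, ?_, ?_, k1⟩
    · have e : (16 : ℚ_[5]) * m - -9 * m = 5 * (5 * m) := by ring
      rw [e, norm_mul, norm_mul, norm_five, nm, mul_one, pow_two]
    · rw [pow_two, ← hκ]
      push_cast
      ring
  refine H.tam4 (nonsingp hm (Or.inr (Or.inl rfl))) ?_
  obtain ⟨z, hz⟩ := sq_five (n := (1 - 5 * m) * (5 - 9 * m)) (by
    have e : (1 - 5 * m) * (5 - 9 * m) = 5 * (1 - 5 * m) - 9 * m + 45 * (m * m) := by ring
    omega)
  have hz' : z * z = (1 - 5 * (m : ℚ_[5])) * (5 - 9 * m) := by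
    rw [← hz]
    push_cast
    ring
  have hz0 : z ≠ 0 := by
    rintro rfl
    have h1 : (1 - 5 * m) * (5 - 9 * m) = 0 := by
      rw [mul_zero] at hz
      exact_mod_cast hz
    rcases mul_eq_zero.1 h1 with h | h <;> omega
  refine ⟨5 - 9 * m, 5 * z, ?_, ?_⟩
  · rw [Affine.nonsingular_iff, isR_eqn (isRp 5 m)]
    constructor
    · linear_combination 25 * hz'
    · right
      simp only [Em, map_a₁, map_a₃, eq_intCast]
      push_cast
      intro h
      apply hz0
      have : (10 : ℚ_[5]) * z = 0 := by linear_combination h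
      exact (mul_eq_zero.1 this).resolve_left (by norm_num)
  · have e : (5 : ℚ_[5]) - 9 * m - -9 * m = 5 := by ring
    rw [e, norm_five]

/-! ### the product of the Tamagawa numbers -/

/-- the minimal equation of the twist by `m` -/
def EE (m : ℤ) : WeierstrassCurve ℤ := if m % 4 = 1 then WN m else Em m

/-- the contribution of `3` if it does not divide `m` -/
def t3 (m : ℤ) : ℕ := if (3 : ℤ) ∣ m then 1 else if m % 3 = 2 then 4 else 2

/-- the contribution of `5` if it does not divide `m` -/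
def t5 (m : ℤ) : ℕ := if (5 : ℤ) ∣ m then 1 else if m % 5 = 1 ∨ m % 5 = 4 then 4 else 2

/-- **The equation is globally minimal.** -/
theorem min_EE {m : ℤ} (hs : Squarefree m) : IsGloballyMinimal (EE m) := by
  unfold EE
  split_ifs with h
  · exact min_WN h hs
  · exact min_Em h hs

theorem pf_WN {m : ℤ} (h4 : m % 4 = 1) :
    (WN m).Δ.natAbs.primeFactors = insert 3 (insert 5 m.natAbs.primeFactors) := by
  have hn0 : m.natAbs ≠ 0 := by omega
  have e : (WN m).Δ.natAbs = 3 ^ 4 * 5 ^ 4 * m.natAbs ^ 6 := by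
    rw [WN_Δ h4, Int.natAbs_mul, Int.natAbs_pow]
    norm_num
  rw [e, Nat.primeFactors_mul (by norm_num) (pow_ne_zero _ hn0),
    Nat.primeFactors_mul (by norm_num) (by norm_num), Nat.primeFactors_pow _ (by norm_num),
    Nat.primeFactors_pow _ (by norm_num), Nat.primeFactors_pow _ (by norm_num),
    Nat.Prime.primeFactors Nat.prime_three, Nat.Prime.primeFactors (by norm_num : Nat.Prime 5),
    Finset.insert_eq, Finset.insert_eq, Finset.union_assoc]

theorem pf_Em {m : ℤ} (hm : m ≠ 0) :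
    (Em m).Δ.natAbs.primeFactors = insert 3 (insert 5 (4 * m.natAbs).primeFactors) := by
  have hm' : m.natAbs ≠ 0 := Int.natAbs_ne_zero.2 hm
  have e : (Em m).Δ.natAbs = 3 ^ 4 * 5 ^ 4 * (2 ^ 12 * m.natAbs ^ 6) := by
    rw [Em_Δ, Int.natAbs_mul, Int.natAbs_pow]
    norm_num
    ring
  have h4 : (4 : ℕ).primeFactors = {2} := by
    rw [show (4 : ℕ) = 2 ^ 2 by norm_num, Nat.primeFactors_pow _ (by norm_num),
      Nat.Prime.primeFactors Nat.prime_two]
  rw [e, Nat.primeFactors_mul (by norm_num) (mul_ne_zero (by norm_num) (pow_ne_zero _ hm')),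
    Nat.primeFactors_mul (by norm_num) (by norm_num), Nat.primeFactors_pow _ (by norm_num),
    Nat.primeFactors_pow _ (by norm_num),
    Nat.primeFactors_mul (by norm_num) (pow_ne_zero _ hm'), Nat.primeFactors_pow _ (by norm_num),
    Nat.primeFactors_pow _ (by norm_num),
    Nat.Prime.primeFactors Nat.prime_three, Nat.Prime.primeFactors (by norm_num : Nat.Prime 5),
    Nat.Prime.primeFactors Nat.prime_two, Nat.primeFactors_mul (by norm_num) hm', h4,
    Finset.insert_eq, Finset.insert_eq, Finset.union_assoc]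

/-- the prime factors of the discriminant of the minimal equation -/
theorem pf_EE {m : ℤ} (hm : m ≠ 0) :
    (EE m).Δ.natAbs.primeFactors = insert 3 (insert 5 (Kd m).primeFactors) := by
  unfold EE Kd
  split_ifs with h
  · exact pf_WN h
  · exact pf_Em hm

/-- the product over the prime factors, from the local values -/
lemma prod_tam5 (n : ℕ) (hn : n ≠ 0) (f : ℕ → ℕ) (a3 a5 : ℕ) (h4 : ∀ p ∈ n.primeFactors, f p = 4)
    (h3 : ¬ 3 ∣ n → f 3 = a3) (h5 : ¬ 5 ∣ n → f 5 = a5) (b3 : 3 ∣ n → a3 = 1) (b5 : 5 ∣ n → a5 = 1) :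
    ∏ p ∈ insert 3 (insert 5 n.primeFactors), f p = 4 ^ n.primeFactors.card * (a3 * a5) := by
  have p5 : Nat.Prime 5 := by norm_num
  have m3 : 3 ∈ n.primeFactors ↔ 3 ∣ n := by
    rw [Nat.mem_primeFactors]
    exact ⟨fun h => h.2.1, fun h => ⟨Nat.prime_three, h, hn⟩⟩
  have m5 : 5 ∈ n.primeFactors ↔ 5 ∣ n := by
    rw [Nat.mem_primeFactors]
    exact ⟨fun h => h.2.1, fun h => ⟨p5, h, hn⟩⟩
  have hp : ∏ p ∈ n.primeFactors, f p = 4 ^ n.primeFactors.card := by
    rw [Finset.prod_congr rfl h4, Finset.prod_const]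
  have h5' : ∏ p ∈ insert 5 n.primeFactors, f p = 4 ^ n.primeFactors.card * a5 := by
    by_cases h : 5 ∣ n
    · rw [b5 h, Finset.insert_eq_of_mem (m5.2 h), hp, mul_one]
    · rw [Finset.prod_insert (fun h' => h (m5.1 h')), hp, h5 h]
      ring
  by_cases h : 3 ∣ n
  · rw [Finset.insert_eq_of_mem (Finset.mem_insert_of_mem (m3.2 h)), h5', b3 h]
    ring
  · rw [Finset.prod_insert, h5', h3 h]
    · ring
    · intro h'
      rcases Finset.mem_insert.1 h' with h' | h'
      · norm_num at h'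
      · exact h (m3.1 h')

/-- the local Tamagawa numbers away from `2` -/
theorem tam_EE_odd {p : ℕ} [Fact p.Prime] (h2 : p ≠ 2) {m : ℤ} : tam (EE m) p = tam (Em m) p := by
  unfold EE
  split_ifs with h
  · exact tam_WN_odd h2 h
  · rfl

/-- **The product of the Tamagawa numbers.** -/
theorem tamProd_EE {m : ℤ} (hs : Squarefree m) :
    tamProd (EE m) = 4 ^ (Kd m).primeFactors.card * (t3 m * t5 m) := by
  have p5 : Nat.Prime 5 := by norm_num
  have hm0 := hs.ne_zero
  unfold tamProd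
  rw [pf_EE hm0]
  refine prod_tam5 (Kd m) (Kd_ne hm0) _ (t3 m) (t5 m) ?_ ?_ ?_ ?_ ?_
  · intro p hp
    obtain ⟨h1, h2, -⟩ := Nat.mem_primeFactors.1 hp
    rw [dif_pos h1]
    haveI := Fact.mk h1
    by_cases hp2 : p = 2
    · subst hp2
      have h4 : m % 4 ≠ 1 := by
        intro h4
        unfold Kd at h2
        rw [if_pos h4] at h2
        omega
      have e : EE m = Em m := if_neg h4
      rw [e]
      exact tam_two hs h4
    · rw [tam_EE_odd hp2]
      exact tam_ram hp2 hs ((dvd_Kd h1 hp2).1 h2)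
  · intro h
    rw [dif_pos Nat.prime_three, tam_EE_odd (by norm_num)]
    have h3 : ¬ (3 : ℤ) ∣ m := fun h' => h ((dvd_Kd Nat.prime_three (by norm_num)).2
      (by exact_mod_cast h'))
    unfold t3
    rw [if_neg h3]
    split_ifs with h31
    · exact tam_three_split h31
    · exact tam_three (by omega)
  · intro h
    rw [dif_pos p5]
    haveI := Fact.mk p5
    rw [tam_EE_odd (by norm_num)]
    have h5 : ¬ (5 : ℤ) ∣ m := fun h' => h ((dvd_Kd p5 (by norm_num)).2 (by exact_mod_cast h'))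
    unfold t5
    rw [if_neg h5]
    split_ifs with h51
    · exact tam_five_split h51
    · exact tam_five (by omega)
  · intro h
    have := (dvd_Kd Nat.prime_three (by norm_num)).1 h
    unfold t3
    rw [if_pos (by exact_mod_cast this)]
  · intro h
    have := (dvd_Kd p5 (by norm_num)).1 h
    unfold t5
    rw [if_pos (by exact_mod_cast this)]

end Pool.Agent.N218.T15
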